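import Mathlib
import Pool.Agent.H755R5.Kum.Stmts

set_option autoImplicit false

namespace Pool.Agent.H407R3.Kum

open NumberField Pool.Agent.H755R5.Kum

/-- natural number representatives of the roots of `X ^ q = η` modulo `r` -/
noncomputable def rootsN (q η r : ℕ) : Finset ℕ := by
  classical
  exact (Finset.range r).filter (fun k => ((k : ℕ) : ZMod r) ^ q = (η : ZMod r))

lemma mem_rootsN {q η r k : ℕ} :
    k ∈ rootsN q η r ↔ k < r ∧ ((k : ℕ) : ZMod r) ^ q = (η : ZMod r) := by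
  classical
  unfold rootsN
  simp

lemma rootsN_ge_one {q η r : ℕ} (hr : r.Prime) (hq : q.Prime) (hcop : ¬ q ∣ r - 1)
    (hη : ¬ r ∣ η) : 1 ≤ (rootsN q η r).card := by
  have : Fact r.Prime := ⟨hr⟩
  have hne : (η : ZMod r) ≠ 0 := by
    intro h
    exact hη ((ZMod.natCast_eq_zero_iff η r).mp h)
  have hcard : Nat.card (ZMod r)ˣ = r - 1 := by
    rw [Nat.card_eq_fintype_card, ZMod.card_units_eq_totient, Nat.totient_prime hr]
  have hc : (Nat.card (ZMod r)ˣ).Coprime q := by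
    rw [hcard]
    exact ((Nat.Prime.coprime_iff_not_dvd hq).mpr hcop).symm
  obtain ⟨t, ht⟩ := (powCoprime hc).surjective (Units.mk0 _ hne)
  have ht' : (t : ZMod r) ^ q = (η : ZMod r) := by
    have := congrArg (fun u : (ZMod r)ˣ => (u : ZMod r)) ht
    simpa [powCoprime] using this
  refine Finset.card_pos.mpr ⟨(t : ZMod r).val, ?_⟩
  rw [mem_rootsN]
  refine ⟨ZMod.val_lt _, ?_⟩
  rw [ZMod.natCast_val, ZMod.cast_id', id]
  exact ht'

lemma rootsN_ge_q {q η r : ℕ} (hr : r.Prime) (hq : q.Prime) (hdvd : q ∣ r - 1)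
    (hη : ¬ r ∣ η) (hroot : ∃ t : ZMod r, t ^ q = (η : ZMod r)) :
    q ≤ (rootsN q η r).card := by
  have : Fact r.Prime := ⟨hr⟩
  have : Fact q.Prime := ⟨hq⟩
  have hne : (η : ZMod r) ≠ 0 := by
    intro h
    exact hη ((ZMod.natCast_eq_zero_iff η r).mp h)
  have hcard : Nat.card (ZMod r)ˣ = r - 1 := by
    rw [Nat.card_eq_fintype_card, ZMod.card_units_eq_totient, Nat.totient_prime hr]
  obtain ⟨ζ, hζ⟩ := exists_prime_orderOf_dvd_card' (G := (ZMod r)ˣ) q (by rw [hcard]; exact hdvd)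
  obtain ⟨t, ht⟩ := hroot
  have ht0 : t ≠ 0 := by
    intro h
    rw [h, zero_pow hq.ne_zero] at ht
    exact hne ht.symm
  have hinj : Set.InjOn (fun i : ℕ => (t * ((ζ ^ i : (ZMod r)ˣ) : ZMod r)).val)
      (Finset.range q : Set ℕ) := by
    intro i hi j hj hij
    have h1 : t * ((ζ ^ i : (ZMod r)ˣ) : ZMod r) = t * ((ζ ^ j : (ZMod r)ˣ) : ZMod r) :=
      ZMod.val_injective r hij
    have h2 : ((ζ ^ i : (ZMod r)ˣ) : ZMod r) = ((ζ ^ j : (ZMod r)ˣ) : ZMod r) :=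
      mul_left_cancel₀ ht0 h1
    have h3 : ζ ^ i = ζ ^ j := Units.ext h2
    have hi' : i < orderOf ζ := by rw [hζ]; simpa using hi
    have hj' : j < orderOf ζ := by rw [hζ]; simpa using hj
    exact pow_injOn_Iio_orderOf hi' hj' h3
  have hmaps : ∀ i ∈ Finset.range q,
      (t * ((ζ ^ i : (ZMod r)ˣ) : ZMod r)).val ∈ rootsN q η r := by
    intro i _
    rw [mem_rootsN]
    refine ⟨ZMod.val_lt _, ?_⟩
    rw [ZMod.natCast_val, ZMod.cast_id', id, mul_pow, ht]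
    have : ((ζ ^ i : (ZMod r)ˣ) : ZMod r) ^ q = 1 := by
      rw [← Units.val_pow_eq_pow_val, ← pow_mul, mul_comm, pow_mul, ← hζ, pow_orderOf_eq_one,
        one_pow, Units.val_one]
    rw [this, mul_one]
  calc q = (Finset.range q).card := (Finset.card_range q).symm
    _ ≤ (rootsN q η r).card := Finset.card_le_card_of_injOn _ hmaps hinj

/-- Task A applied to the ideals `P r t`. -/
lemma sum_roots_le (hA : TaskA) {q η : ℕ} (E : Type) [Field E] [NumberField E] (m : ℕ)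
    (P : (r : ℕ) → ZMod r → Ideal (𝓞 E))
    (hP : ∀ r : ℕ, r.Prime → ¬ r ∣ m → ∀ t : ZMod r, t ^ q = (η : ZMod r) →
      (P r t).IsMaximal ∧ Ideal.absNorm (P r t) = r ∧
        ∀ t' : ZMod r, t' ^ q = (η : ZMod r) → P r t = P r t' → t = t') :
    ∃ C : ℝ, ∀ G : Finset ℕ, (∀ r ∈ G, r.Prime ∧ ¬ r ∣ m) → ∀ s : ℝ, 1 < s → s < 2 →
      ∑ r ∈ G, ((rootsN q η r).card : ℝ) * (r : ℝ) ^ (-s) ≤ Real.log (1 / (s - 1)) + C := by
  classical
  obtain ⟨C, hC⟩ := hA E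
  refine ⟨C, fun G hG s hs1 hs2 => ?_⟩
  set I : Finset ((_ : ℕ) × ℕ) := G.sigma (fun r => rootsN q η r) with hI
  have hmem : ∀ x ∈ I, x.1.Prime ∧ ¬ x.1 ∣ m ∧ x.2 < x.1 ∧
      ((x.2 : ℕ) : ZMod x.1) ^ q = (η : ZMod x.1) := by
    intro x hx
    rw [hI, Finset.mem_sigma, mem_rootsN] at hx
    exact ⟨(hG _ hx.1).1, (hG _ hx.1).2, hx.2.1, hx.2.2⟩
  have hinj : Set.InjOn (fun x : ((_ : ℕ) × ℕ) => P x.1 ((x.2 : ℕ) : ZMod x.1)) (I : Set _) := by
    rintro ⟨r, k⟩ hx ⟨r', k'⟩ hy hxy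
    obtain ⟨a1, a2, a3, a4⟩ := hmem _ hx
    obtain ⟨b1, b2, b3, b4⟩ := hmem _ hy
    simp only at a1 a2 a3 a4 b1 b2 b3 b4 hxy
    have h1 := (hP r a1 a2 _ a4).2.1
    have h2 := (hP r' b1 b2 _ b4).2.1
    rw [hxy, h2] at h1
    subst h1
    have h3 := (hP r' a1 a2 _ a4).2.2 _ b4 hxy
    have h4 : k = k' := by
      have := congrArg ZMod.val h3
      rwa [ZMod.val_natCast_of_lt a3, ZMod.val_natCast_of_lt b3] at this
    rw [h4]
  have key := hC (I.image (fun x : ((_ : ℕ) × ℕ) => P x.1 ((x.2 : ℕ) : ZMod x.1))) (by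
    intro Q hQ
    rw [Finset.mem_image] at hQ
    obtain ⟨x, hx, rfl⟩ := hQ
    obtain ⟨a1, a2, a3, a4⟩ := hmem _ hx
    exact (hP _ a1 a2 _ a4).1) s hs1 hs2
  rw [Finset.sum_image hinj] at key
  have e : ∑ x ∈ I, ((Ideal.absNorm (P x.1 ((x.2 : ℕ) : ZMod x.1)) : ℕ) : ℝ) ^ (-s) =
      ∑ r ∈ G, ((rootsN q η r).card : ℝ) * (r : ℝ) ^ (-s) := by
    rw [hI, Finset.sum_sigma]
    refine Finset.sum_congr rfl (fun r hr => ?_)
    rw [← nsmul_eq_mul, ← Finset.sum_const]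
    refine Finset.sum_congr rfl (fun k hk => ?_)
    rw [mem_rootsN] at hk
    rw [(hP r (hG r hr).1 (hG r hr).2 _ hk.2).2.1]
  rw [e] at key
  exact key

lemma prime_mem_NonRes_iff {q η r : ℕ} :
    r ∈ NonRes q η ↔ (r.Prime ∧ q ∣ r - 1) ∧ ¬ ∃ t : ZMod r, t ^ q = (η : ZMod r) := Iff.rfl

/-- the local counting inequality -/
lemma local_ineq {q η r : ℕ} (hq : q.Prime) (hr : r.Prime) (hη : ¬ r ∣ η) (a : ℝ) (ha : 0 ≤ a) :
    a + ((q : ℝ) - 1) * ({r : ℕ | q ∣ r - 1 ∧ r ∉ NonRes q η}.indicator (fun _ => a) r) -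
      (NonRes q η).indicator (fun _ => a) r ≤ ((rootsN q η r).card : ℝ) * a := by
  classical
  by_cases h1 : q ∣ r - 1
  · by_cases h2 : r ∈ NonRes q η
    · have h3 : r ∉ {r : ℕ | q ∣ r - 1 ∧ r ∉ NonRes q η} := fun h => h.2 h2
      rw [Set.indicator_of_notMem h3, Set.indicator_of_mem h2]
      have : 0 ≤ ((rootsN q η r).card : ℝ) * a := by positivity
      linarith
    · have h3 : r ∈ {r : ℕ | q ∣ r - 1 ∧ r ∉ NonRes q η} := ⟨h1, h2⟩
      rw [Set.indicator_of_mem h3, Set.indicator_of_notMem h2]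
      have h4 : ∃ t : ZMod r, t ^ q = (η : ZMod r) := by
        by_contra hcon
        exact h2 ⟨⟨hr, h1⟩, hcon⟩
      have h5 : (q : ℝ) ≤ ((rootsN q η r).card : ℝ) := by
        exact_mod_cast rootsN_ge_q hr hq h1 hη h4
      nlinarith [mul_le_mul_of_nonneg_right h5 ha]
  · have h2 : r ∉ NonRes q η := fun h => h1 h.1.2
    have h3 : r ∉ {r : ℕ | q ∣ r - 1 ∧ r ∉ NonRes q η} := fun h => h1 h.1
    rw [Set.indicator_of_notMem h3, Set.indicator_of_notMem h2]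
    have h5 : (1 : ℝ) ≤ ((rootsN q η r).card : ℝ) := by
      exact_mod_cast rootsN_ge_one hr hq h1 hη
    nlinarith [mul_le_mul_of_nonneg_right h5 ha]

lemma rpow_neg_le_one {r : ℕ} (hr : r.Prime) {s : ℝ} (hs : 1 < s) : ((r : ℕ) : ℝ) ^ (-s) ≤ 1 := by
  have h1 : (1 : ℝ) ≤ (r : ℝ) := by exact_mod_cast hr.one_lt.le
  exact Real.rpow_le_one_of_one_le_of_nonpos h1 (by linarith)

lemma rpow_neg_le_inv {r : ℕ} (hr : r.Prime) {s : ℝ} (hs : 1 < s) :
    ((r : ℕ) : ℝ) ^ (-s) ≤ 1 / (r : ℝ) := by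
  have h1 : (1 : ℝ) ≤ (r : ℝ) := by exact_mod_cast hr.one_lt.le
  have h2 : (1 : ℝ) / (r : ℝ) = (r : ℝ) ^ (-(1 : ℝ)) := by
    rw [Real.rpow_neg_one, one_div]
  rw [h2]
  exact Real.rpow_le_rpow_of_exponent_le h1 (by linarith)

lemma bad_sum_le {b : ℕ} (hb : b ≠ 0) (V : Finset ℕ) (hV : ∀ r ∈ V, r.Prime) {s : ℝ} (hs : 1 < s) :
    ∑ r ∈ V.filter (fun r => r ∣ b), ((r : ℕ) : ℝ) ^ (-s) ≤ (b.primeFactors.card : ℝ) := by
  calc ∑ r ∈ V.filter (fun r => r ∣ b), ((r : ℕ) : ℝ) ^ (-s)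
      ≤ ∑ r ∈ V.filter (fun r => r ∣ b), (1 : ℝ) := by
        refine Finset.sum_le_sum (fun r hr => ?_)
        exact rpow_neg_le_one (hV r (Finset.mem_filter.mp hr).1) hs
    _ = ((V.filter (fun r => r ∣ b)).card : ℝ) := by simp
    _ ≤ (b.primeFactors.card : ℝ) := by
        have : V.filter (fun r => r ∣ b) ⊆ b.primeFactors := by
          intro r hr
          rw [Finset.mem_filter] at hr
          rw [Nat.mem_primeFactors]
          exact ⟨hV r hr.1, hr.2, hb⟩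
        exact_mod_cast Finset.card_le_card this

lemma nonres_sum_le {q η : ℕ}
    (hsum : Summable (fun r : ℕ => (NonRes q η).indicator (fun n : ℕ => (1 : ℝ) / n) r))
    (V : Finset ℕ) {s : ℝ} (hs : 1 < s) :
    ∑ r ∈ V, (NonRes q η).indicator (fun _ => ((r : ℕ) : ℝ) ^ (-s)) r ≤
      ∑' r : ℕ, (NonRes q η).indicator (fun n : ℕ => (1 : ℝ) / n) r := by
  classical
  have hnn : ∀ r : ℕ, 0 ≤ (NonRes q η).indicator (fun n : ℕ => (1 : ℝ) / n) r := by
    intro r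
    exact Set.indicator_nonneg (fun n _ => by positivity) r
  calc ∑ r ∈ V, (NonRes q η).indicator (fun _ => ((r : ℕ) : ℝ) ^ (-s)) r
      ≤ ∑ r ∈ V, (NonRes q η).indicator (fun n : ℕ => (1 : ℝ) / n) r := by
        refine Finset.sum_le_sum (fun r _ => ?_)
        by_cases h : r ∈ NonRes q η
        · rw [Set.indicator_of_mem h, Set.indicator_of_mem h]
          exact rpow_neg_le_inv h.1.1 hs
        · rw [Set.indicator_of_notMem h, Set.indicator_of_notMem h]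
    _ ≤ _ := hsum.sum_le_tsum V (fun r _ => hnn r)

theorem taskD : TaskD := by
  classical
  intro hA hB hC hDir q η hq hη hnp hsum
  obtain ⟨E, iF, iN, m, P, hm, hP⟩ := hC q η hq hη hnp
  obtain ⟨CA, hCA⟩ := sum_roots_le hA E m P hP
  obtain ⟨CB, hCB⟩ := hB
  set b : ℕ := m * η with hb
  have hb0 : b ≠ 0 := by positivity
  set D : ℝ := (b.primeFactors.card : ℝ) with hD
  set SN : ℝ := ∑' r : ℕ, (NonRes q η).indicator (fun n : ℕ => (1 : ℝ) / n) r with hSN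
  set K : ℝ := CA + CB + 1 + D + SN + D + SN with hK
  have main : ∀ T : Finset ℕ, (∀ r ∈ T, r.Prime ∧ q ∣ r - 1) → ∀ s : ℝ, 1 < s → s < 2 →
      ∑ r ∈ T, ((r : ℕ) : ℝ) ^ (-s) ≤ K := by
    intro T hT s hs1 hs2
    have hsm : Summable (fun p : Nat.Primes => ((p : ℕ) : ℝ) ^ (-s)) :=
      Nat.Primes.summable_rpow.mpr (by linarith)
    obtain ⟨U, hU⟩ := (hsm.hasSum.eventually_const_lt
      (show (∑' p : Nat.Primes, ((p : ℕ) : ℝ) ^ (-s)) - 1 <
        ∑' p : Nat.Primes, ((p : ℕ) : ℝ) ^ (-s) by linarith)).exists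
    set V : Finset ℕ := U.image (fun p : Nat.Primes => (p : ℕ)) ∪ T with hVdef
    have hVp : ∀ r ∈ V, r.Prime := by
      intro r hr
      rw [hVdef, Finset.mem_union, Finset.mem_image] at hr
      rcases hr with ⟨p, _, rfl⟩ | hr
      · exact p.2
      · exact (hT r hr).1
    have hnn : ∀ r : ℕ, (0 : ℝ) ≤ ((r : ℕ) : ℝ) ^ (-s) := fun r => by positivity
    have hVsum : ∑' p : Nat.Primes, ((p : ℕ) : ℝ) ^ (-s) - 1 ≤ ∑ r ∈ V, ((r : ℕ) : ℝ) ^ (-s) := by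
      have h1 : ∑ p ∈ U, ((p : ℕ) : ℝ) ^ (-s) =
          ∑ r ∈ U.image (fun p : Nat.Primes => (p : ℕ)), ((r : ℕ) : ℝ) ^ (-s) := by
        rw [Finset.sum_image]
        intro x _ y _ hxy
        exact Subtype.ext hxy
      have h2 : ∑ r ∈ U.image (fun p : Nat.Primes => (p : ℕ)), ((r : ℕ) : ℝ) ^ (-s) ≤
          ∑ r ∈ V, ((r : ℕ) : ℝ) ^ (-s) :=
        Finset.sum_le_sum_of_subset_of_nonneg (by rw [hVdef]; exact Finset.subset_union_left)
          (fun r _ _ => hnn r)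
      rw [h1] at hU
      linarith
    set G : Finset ℕ := V.filter (fun r => ¬ r ∣ b) with hG
    have hGm : ∀ r ∈ G, r.Prime ∧ ¬ r ∣ m := by
      intro r hr
      rw [hG, Finset.mem_filter] at hr
      exact ⟨hVp r hr.1, fun h => hr.2 (h.mul_right η)⟩
    have hGη : ∀ r ∈ G, ¬ r ∣ η := by
      intro r hr
      rw [hG, Finset.mem_filter] at hr
      exact fun h => hr.2 (h.mul_left m)
    have h1 := hCA G hGm s hs1 hs2
    have h2 := hCB s hs1 hs2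
    have h3 : ∑ r ∈ G, (((r : ℕ) : ℝ) ^ (-s) + ((q : ℝ) - 1) *
        ({r : ℕ | q ∣ r - 1 ∧ r ∉ NonRes q η}.indicator (fun _ => ((r : ℕ) : ℝ) ^ (-s)) r) -
        (NonRes q η).indicator (fun _ => ((r : ℕ) : ℝ) ^ (-s)) r) ≤
        ∑ r ∈ G, ((rootsN q η r).card : ℝ) * (r : ℝ) ^ (-s) :=
      Finset.sum_le_sum (fun r hr => local_ineq hq (hGm r hr).1 (hGη r hr) _ (hnn r))
    rw [Finset.sum_sub_distrib, Finset.sum_add_distrib, ← Finset.mul_sum] at h3
    have h4 := nonres_sum_le hsum G hs1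
    have h5 := bad_sum_le hb0 V hVp hs1
    have h6 : ∑ r ∈ V, ((r : ℕ) : ℝ) ^ (-s) =
        ∑ r ∈ V.filter (fun r => r ∣ b), ((r : ℕ) : ℝ) ^ (-s) + ∑ r ∈ G, ((r : ℕ) : ℝ) ^ (-s) := by
      rw [hG]
      exact (Finset.sum_filter_add_sum_filter_not V (fun r => r ∣ b) _).symm
    set W : ℝ := ∑ r ∈ G,
      ({r : ℕ | q ∣ r - 1 ∧ r ∉ NonRes q η}.indicator (fun _ => ((r : ℕ) : ℝ) ^ (-s)) r) with hW
    have hW0 : 0 ≤ W := by
      rw [hW]
      exact Finset.sum_nonneg (fun r _ => Set.indicator_nonneg (fun _ _ => hnn r) r)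
    have hq2 : (2 : ℝ) ≤ (q : ℝ) := by exact_mod_cast hq.two_le
    have h7 : W ≤ ((q : ℝ) - 1) * W := by nlinarith
    have h8 : W ≤ CA + CB + 1 + D + SN := by
      rw [← hSN] at h4
      rw [← hD] at h5
      linarith
    have h9 : ∑ r ∈ T, ((r : ℕ) : ℝ) ^ (-s) ≤ D + SN + W := by
      have e1 : ∑ r ∈ T, ((r : ℕ) : ℝ) ^ (-s) =
        ∑ r ∈ T.filter (fun r => r ∣ b), ((r : ℕ) : ℝ) ^ (-s) +
          ∑ r ∈ T.filter (fun r => ¬ r ∣ b), ((r : ℕ) : ℝ) ^ (-s) :=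
        (Finset.sum_filter_add_sum_filter_not T (fun r => r ∣ b) _).symm
      have e2 := bad_sum_le hb0 T (fun r hr => (hT r hr).1) hs1
      have e3 : ∑ r ∈ T.filter (fun r => ¬ r ∣ b), ((r : ℕ) : ℝ) ^ (-s) ≤
          ∑ r ∈ T.filter (fun r => ¬ r ∣ b),
            ((NonRes q η).indicator (fun _ => ((r : ℕ) : ℝ) ^ (-s)) r +
            ({r : ℕ | q ∣ r - 1 ∧ r ∉ NonRes q η}.indicator
              (fun _ => ((r : ℕ) : ℝ) ^ (-s)) r)) := by
        refine Finset.sum_le_sum (fun r hr => ?_)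
        rw [Finset.mem_filter] at hr
        by_cases h : r ∈ NonRes q η
        · have h' : r ∉ {r : ℕ | q ∣ r - 1 ∧ r ∉ NonRes q η} := fun hh => hh.2 h
          rw [Set.indicator_of_mem h, Set.indicator_of_notMem h', add_zero]
        · have h' : r ∈ {r : ℕ | q ∣ r - 1 ∧ r ∉ NonRes q η} := ⟨(hT r hr.1).2, h⟩
          rw [Set.indicator_of_notMem h, Set.indicator_of_mem h', zero_add]
      rw [Finset.sum_add_distrib] at e3
      have e4 := nonres_sum_le hsum (T.filter (fun r => ¬ r ∣ b)) hs1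
      have e5 : ∑ r ∈ T.filter (fun r => ¬ r ∣ b),
          ({r : ℕ | q ∣ r - 1 ∧ r ∉ NonRes q η}.indicator
              (fun _ => ((r : ℕ) : ℝ) ^ (-s)) r) ≤ W := by
        rw [hW]
        refine Finset.sum_le_sum_of_subset_of_nonneg ?_
          (fun r _ _ => Set.indicator_nonneg (fun _ _ => hnn r) r)
        rw [hG]
        exact Finset.filter_subset_filter _ (by rw [hVdef]; exact Finset.subset_union_right)
      rw [← hSN] at e4
      rw [← hD] at e2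
      linarith
    rw [hK]
    linarith
  have main1 : ∀ T : Finset ℕ, (∀ r ∈ T, r.Prime ∧ q ∣ r - 1) →
      ∑ r ∈ T, (1 : ℝ) / ((r : ℕ) : ℝ) ≤ K := by
    intro T hT
    have hcont : Filter.Tendsto (fun s : ℝ => ∑ r ∈ T, ((r : ℕ) : ℝ) ^ (-s))
        (nhdsWithin 1 (Set.Ioi 1)) (nhds (∑ r ∈ T, ((r : ℕ) : ℝ) ^ (-(1 : ℝ)))) := by
      refine Filter.Tendsto.mono_left ?_ nhdsWithin_le_nhds
      refine tendsto_finsetSum _ (fun r hr => ?_)
      have hr0 : ((r : ℕ) : ℝ) ≠ 0 := by exact_mod_cast (hT r hr).1.ne_zero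
      exact ((Real.continuousAt_const_rpow hr0).comp continuous_neg.continuousAt).tendsto
    have hle : ∀ᶠ s : ℝ in nhdsWithin 1 (Set.Ioi 1), ∑ r ∈ T, ((r : ℕ) : ℝ) ^ (-s) ≤ K := by
      have : Set.Ioo (1 : ℝ) 2 ∈ nhdsWithin (1 : ℝ) (Set.Ioi 1) :=
        Ioo_mem_nhdsGT (by norm_num)
      filter_upwards [this] with s hs
      exact main T hT s hs.1 hs.2
    have := le_of_tendsto hcont hle
    refine le_trans (le_of_eq ?_) this
    refine Finset.sum_congr rfl (fun r _ => ?_)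
    rw [Real.rpow_neg_one, one_div]
  refine hDir q hq.pos (summable_of_sum_le (c := K) ?_ ?_)
  · intro r
    exact Set.indicator_nonneg (fun n _ => by positivity) r
  · intro u
    have e : ∑ r ∈ u, {r : ℕ | r.Prime ∧ q ∣ r - 1}.indicator (fun n : ℕ => (1 : ℝ) / n) r =
        ∑ r ∈ u.filter (fun r => r.Prime ∧ q ∣ r - 1), (1 : ℝ) / ((r : ℕ) : ℝ) := by
      rw [Finset.sum_filter]
      refine Finset.sum_congr rfl (fun r _ => ?_)
      rw [Set.indicator_apply]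
      rfl
    rw [e]
    exact main1 _ (fun r hr => (Finset.mem_filter.mp hr).2)

end Pool.Agent.H407R3.Kum
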